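import Mathlib
import Pool.Agent.H452R2.PO.Defs

open Pool.Agent.H383.PZ

namespace Pool.Agent.H452R2.PO

theorem msq_tel (θ ψ : ℝ) (N : ℕ) :
    2 * Real.sin (Real.pi * θ) *
        ∑ n ∈ Finset.range N, Real.cos (2 * Real.pi * (n * θ) - ψ) =
      Real.sin (2 * Real.pi * (N * θ) - ψ - Real.pi * θ) - Real.sin (-ψ - Real.pi * θ) := by
  induction N with
  | zero => simp
  | succ N ih =>
    rw [Finset.sum_range_succ, mul_add, ih]
    have h1 : 2 * Real.sin (Real.pi * θ) * Real.cos (2 * Real.pi * (N * θ) - ψ) =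
        Real.sin (2 * Real.pi * (N * θ) - ψ + Real.pi * θ) -
          Real.sin (2 * Real.pi * (N * θ) - ψ - Real.pi * θ) := by
      rw [Real.sin_add (2 * Real.pi * (N * θ) - ψ) (Real.pi * θ),
        Real.sin_sub (2 * Real.pi * (N * θ) - ψ) (Real.pi * θ)]; ring
    rw [h1]
    have h2 : (2 * Real.pi * (((N + 1 : ℕ) : ℝ) * θ) - ψ - Real.pi * θ) =
        2 * Real.pi * (N * θ) - ψ + Real.pi * θ := by push_cast; ring
    rw [h2]; ring

theorem msq_geo (θ ψ : ℝ) (g : ℝ) (hg : 0 < g) (h0 : g ≤ |θ|) (h1 : |θ| ≤ 1 / 2) (N : ℕ) :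
    |∑ n ∈ Finset.range N, Real.cos (2 * Real.pi * (n * θ) - ψ)| ≤ 1 / (2 * g) := by
  have h2 := msq_tel θ ψ N
  have h3 : |2 * Real.sin (Real.pi * θ) *
      ∑ n ∈ Finset.range N, Real.cos (2 * Real.pi * (n * θ) - ψ)| ≤ 2 := by
    rw [h2]
    have ha := Real.abs_sin_le_one (2 * Real.pi * (N * θ) - ψ - Real.pi * θ)
    have hb := Real.abs_sin_le_one (-ψ - Real.pi * θ)
    rw [abs_le] at ha hb ⊢
    constructor <;> linarith
  have h4 : 2 * g ≤ |Real.sin (Real.pi * θ)| := by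
    have hpi := Real.pi_pos
    have h5 : |Real.pi * θ| ≤ Real.pi := by
      rw [abs_mul, abs_of_pos hpi]; nlinarith
    rw [Real.abs_sin_eq_sin_abs_of_abs_le_pi h5]
    have h6 : |Real.pi * θ| ≤ Real.pi / 2 := by
      rw [abs_mul, abs_of_pos hpi]; nlinarith
    have h7 := Real.mul_le_sin (abs_nonneg (Real.pi * θ)) h6
    refine le_trans ?_ h7
    rw [abs_mul, abs_of_pos hpi]
    have : 2 / Real.pi * (Real.pi * |θ|) = 2 * |θ| := by field_simp
    rw [this]; linarith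
  rw [abs_mul, abs_mul, abs_of_pos (by norm_num : (0 : ℝ) < 2)] at h3
  rw [le_div_iff₀ (by positivity)]
  have h8 := abs_nonneg (∑ n ∈ Finset.range N, Real.cos (2 * Real.pi * (n * θ) - ψ))
  nlinarith [mul_le_mul_of_nonneg_right h4 h8]

theorem msq_pair (x y φ g : ℝ) (hg : 0 < g) (hx : g ≤ x ∧ x ≤ 1 / 4) (hy : g ≤ y ∧ y ≤ 1 / 4)
    (hxy : g ≤ |x - y|) (N : ℕ) :
    |∑ n ∈ Finset.range N, Real.cos (2 * Real.pi * (n * x) - φ) *
      Real.cos (2 * Real.pi * (n * y) - φ)| ≤ 1 / g := by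
  have h1 : ∀ n : ℕ, Real.cos (2 * Real.pi * (n * x) - φ) * Real.cos (2 * Real.pi * (n * y) - φ) =
      (1 / 2) * Real.cos (2 * Real.pi * (n * (x - y)) - 0) +
      (1 / 2) * Real.cos (2 * Real.pi * (n * (x + y)) - 2 * φ) := by
    intro n
    have e1 : 2 * Real.pi * (n * (x - y)) - 0 =
      (2 * Real.pi * (n * x) - φ) - (2 * Real.pi * (n * y) - φ) := by ring
    have e2 : 2 * Real.pi * (n * (x + y)) - 2 * φ =
      (2 * Real.pi * (n * x) - φ) + (2 * Real.pi * (n * y) - φ) := by ring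
    rw [e1, e2, Real.cos_sub (2 * Real.pi * (n * x) - φ) (2 * Real.pi * (n * y) - φ),
      Real.cos_add (2 * Real.pi * (n * x) - φ) (2 * Real.pi * (n * y) - φ)]
    ring
  rw [Finset.sum_congr rfl fun n _ => h1 n, Finset.sum_add_distrib, ← Finset.mul_sum,
    ← Finset.mul_sum]
  have h2 := msq_geo (x - y) 0 g hg hxy (by rw [abs_le]; constructor <;> linarith [hx.1, hx.2, hy.1, hy.2]) N
  have h3 := msq_geo (x + y) (2 * φ) g hg
    (by rw [abs_of_pos (by linarith [hx.1, hy.1])]; linarith [hx.1, hy.1])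
    (by rw [abs_of_pos (by linarith [hx.1, hy.1])]; linarith [hx.2, hy.2]) N
  have h4 : 1 / g = 1 / (2 * g) + 1 / (2 * g) := by field_simp; norm_num
  rw [abs_le] at h2 h3 ⊢
  rw [h4]
  have h5 : 0 < 1 / (2 * g) := by positivity
  constructor <;> linarith [h2.1, h2.2, h3.1, h3.2]

theorem msq_diag (x φ g : ℝ) (hg : 0 < g) (hx : g ≤ x ∧ x ≤ 1 / 4) (N : ℕ) :
    ∑ n ∈ Finset.range N, Real.cos (2 * Real.pi * (n * x) - φ) *
      Real.cos (2 * Real.pi * (n * x) - φ) ≤ N + 1 / g := by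
  have h1 : ∀ n ∈ Finset.range N, Real.cos (2 * Real.pi * (n * x) - φ) *
      Real.cos (2 * Real.pi * (n * x) - φ) ≤ 1 := by
    intro n _
    have := Real.abs_cos_le_one (2 * Real.pi * (n * x) - φ)
    rw [abs_le] at this
    nlinarith [this.1, this.2]
  have h2 := Finset.sum_le_sum h1
  simp only [Finset.sum_const, Finset.card_range, nsmul_eq_mul, mul_one] at h2
  have h5 : 0 < 1 / g := by positivity
  linarith

theorem msq (I : Finset ℕ) (b x : ℕ → ℝ) (φ g : ℝ) (hg : 0 < g) (hb : ∀ m, 0 ≤ b m)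
    (hx : ∀ m ∈ I, g ≤ x m ∧ x m ≤ 1/4) (hsep : ∀ m ∈ I, ∀ m' ∈ I, m ≠ m' → g ≤ |x m - x m'|) (N : ℕ) :
    ∑ n ∈ Finset.range N, (∑ m ∈ I, b m * Real.cos (2 * Real.pi * (n * x m) - φ)) ^ 2 ≤
      (∑ m ∈ I, b m ^ 2) * N + (∑ m ∈ I, b m) ^ 2 * (2 / g) := by
  have h1 : ∑ n ∈ Finset.range N, (∑ m ∈ I, b m * Real.cos (2 * Real.pi * (n * x m) - φ)) ^ 2 =
      ∑ m ∈ I, ∑ m' ∈ I, b m * b m' * ∑ n ∈ Finset.range N,
        Real.cos (2 * Real.pi * (n * x m) - φ) * Real.cos (2 * Real.pi * (n * x m') - φ) := by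
    simp_rw [sq, Finset.sum_mul_sum, Finset.mul_sum]
    rw [Finset.sum_comm]
    refine Finset.sum_congr rfl fun m _ => ?_
    rw [Finset.sum_comm]
    refine Finset.sum_congr rfl fun m' _ => ?_
    refine Finset.sum_congr rfl fun n _ => ?_
    ring
  rw [h1]
  have h2 : ∀ m ∈ I, ∀ m' ∈ I, b m * b m' * ∑ n ∈ Finset.range N,
        Real.cos (2 * Real.pi * (n * x m) - φ) * Real.cos (2 * Real.pi * (n * x m') - φ) ≤
      (if m = m' then b m ^ 2 * N else 0) + b m * b m' * (1 / g) := by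
    intro m hm m' hm'
    have hbb : 0 ≤ b m * b m' := mul_nonneg (hb m) (hb m')
    by_cases hmm : m = m'
    · subst hmm
      rw [if_pos rfl]
      have := mul_le_mul_of_nonneg_left (msq_diag (x m) φ g hg (hx m hm) N) hbb
      linarith
    · rw [if_neg hmm, zero_add]
      exact mul_le_mul_of_nonneg_left (le_trans (le_abs_self _)
        (msq_pair (x m) (x m') φ g hg (hx m hm) (hx m' hm') (hsep m hm m' hm' hmm) N)) hbb
  refine le_trans (Finset.sum_le_sum fun m hm => Finset.sum_le_sum fun m' hm' => h2 m hm m' hm') ?_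
  simp_rw [Finset.sum_add_distrib]
  have h3 : ∑ m ∈ I, ∑ m' ∈ I, (if m = m' then b m ^ 2 * (N : ℝ) else 0) =
      (∑ m ∈ I, b m ^ 2) * N := by
    rw [Finset.sum_mul]
    refine Finset.sum_congr rfl fun m hm => ?_
    rw [Finset.sum_ite_eq, if_pos hm]
  have h4 : ∑ m ∈ I, ∑ m' ∈ I, b m * b m' * (1 / g) = (∑ m ∈ I, b m) ^ 2 * (1 / g) := by
    rw [sq, Finset.sum_mul_sum, Finset.sum_mul]
    refine Finset.sum_congr rfl fun m _ => ?_
    rw [Finset.sum_mul]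
  rw [h3, h4]
  have h5 : (∑ m ∈ I, b m) ^ 2 * (1 / g) ≤ (∑ m ∈ I, b m) ^ 2 * (2 / g) := by
    apply mul_le_mul_of_nonneg_left _ (sq_nonneg _)
    apply div_le_div_of_nonneg_right (by norm_num) hg.le
  linarith

end Pool.Agent.H452R2.PO
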